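import Pool.Agent.R763.Cone5

set_option autoImplicit false
open MeasureTheory Set Filter Topology

namespace Pool.Agent.Results.MP_4b815d_gt.ConeCounterexample

open Pool.Agent.R763.Cn

/-- A closed topological disk `D` with a rectifiable boundary of length `L`, parametrised by `c`. -/
structure IsDisk {M : Type} [MetricSpace M] (D : Set M) (c : ℝ → M) (P L : ℝ) : Prop where
  closed : IsClosed D
  boundary : IsBoundaryCurve D c P
  interior : Nonempty (interior D ≃ₜ Metric.ball (0:ℂ) 1)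
  length : len c 0 P = L
  rectifiable : eVariationOn c (Icc 0 P) ≠ ⊤

/-- `λ`-convexity of a disk whose boundary lies in the flat part of `M`: every boundary point has a
neighbourhood isometric to a Euclidean disk in which `D` is convex (so that the angles on the side
of `D` between inscribed segments are the angles between these segments), and the swerve of every
arc of the boundary exists and is at least `λ` times its length.  The swerve is the limit of the sum
of `π - α` over the interior vertices plus the two end angles; `swerve_literal` says the same for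
the formula in which the end angles enter as `π - α`. -/
structure IsLambdaConvex {M : Type} [MetricSpace M] (D : Set M) (c : ℝ → M) (P lam : ℝ) : Prop where
  flat : ∀ p ∈ frontier D, FlatConvexNear D p
  swerve : ∀ a b : ℝ, a < b → b ≤ a + P → ∃ φ, HasSwerve c a b φ ∧ lam * len c a b ≤ φ
  swerve_literal : ∀ a b : ℝ, a < b → b ≤ a + P →
    ∃ φ, HasSwerveLiteral c a b φ ∧ lam * len c a b ≤ φ

/-- the point with argument `θ` on the circle of radius `1 / λ` around `z` -/
noncomputable def circ (lam : ℝ) (z : ℂ) (θ : ℝ) : ℂ := z + (1 / lam) • Complex.exp (θ * Complex.I)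

/-- A `λ`-convex lune of perimeter `L` in the Euclidean plane: a compact convex region with
nonempty interior bounded by two arcs of circles of radius `1 / λ`, each of length `L / 2`, with
common end points. -/
def IsLune (lam L : ℝ) (S : Set ℂ) : Prop :=
  IsCompact S ∧ Convex ℝ S ∧ (interior S).Nonempty ∧ ∃ (z₁ z₂ : ℂ) (a₁ a₂ : ℝ),
    frontier S = circ lam z₁ '' Icc a₁ (a₁ + lam * (L / 2)) ∪
      circ lam z₂ '' Icc a₂ (a₂ + lam * (L / 2)) ∧
    circ lam z₁ a₁ = circ lam z₂ (a₂ + lam * (L / 2)) ∧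
    circ lam z₁ (a₁ + lam * (L / 2)) = circ lam z₂ a₂

theorem circ_eq (z : ℂ) (θ : ℝ) : circ 1 z θ = z + e θ := by
  rw [circ, div_one, one_smul, e]

/-- a point of a quarter arc is close to the midpoint of the chord -/
theorem arc_dist {z : ℂ} {a θ : ℝ} (h0 : a ≤ θ) (h1 : θ ≤ a + Real.pi / 2) :
    dist ((1/2 : ℝ) • (z + e a) + (1/2 : ℝ) • (z + e (a + Real.pi / 2))) (z + e θ) ≤
      Real.sqrt 2 / 2 := by
  have hpi := Real.pi_pos
  have e1 : (1/2 : ℝ) • (z + e a) + (1/2 : ℝ) • (z + e (a + Real.pi / 2)) - (z + e θ)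
      = (Real.sqrt 2 / 2) • e (a + Real.pi / 4) - (1:ℝ) • e θ := by
    have h2 := e_add a (a + Real.pi / 2)
    rw [show (a + Real.pi / 2 - a) / 2 = Real.pi / 4 by ring,
      show (a + (a + Real.pi / 2)) / 2 = a + Real.pi / 4 by ring, Real.cos_pi_div_four] at h2
    have h3 : (1/2 : ℝ) • (z + e a) + (1/2 : ℝ) • (z + e (a + Real.pi / 2))
        = z + (1/2 : ℝ) • (e a + e (a + Real.pi / 2)) := by
      simp only [Complex.real_smul]; push_cast; ring
    rw [h3, h2, smul_smul, one_smul]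
    rw [show (1:ℝ) / 2 * (2 * (Real.sqrt 2 / 2)) = Real.sqrt 2 / 2 by ring]
    ring
  rw [dist_eq_norm, e1]
  have h4 := nsub (Real.sqrt 2 / 2) 1 (e_norm (a + Real.pi / 4)) (e_norm θ)
  rw [e_inner] at h4
  have h5 : Real.sqrt 2 / 2 ≤ Real.cos (a + Real.pi / 4 - θ) := by
    rw [← Real.cos_pi_div_four, ← Real.cos_abs (a + Real.pi / 4 - θ)]
    apply Real.cos_le_cos_of_nonneg_of_le_pi (abs_nonneg _) (by linarith)
    rw [abs_le]; constructor <;> linarith
  have h6 : Real.sqrt 2 ^ 2 = 2 := Real.sq_sqrt (by norm_num)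
  have h7 : 0 < Real.sqrt 2 := by positivity
  apply (sq_le_sq₀ (norm_nonneg _) (by positivity)).1
  rw [h4]
  nlinarith

/-- the circumscribed radius of the lune is at most `√2 / 2` -/
theorem lune_radius {S : Set ℂ} (h : IsLune 1 Real.pi S) : circumRadius S ≤ Real.sqrt 2 / 2 := by
  obtain ⟨hcomp, hconv, hint, z₁, z₂, a₁, a₂, hfr, he1, he2⟩ := h
  have hval : (1:ℝ) * (Real.pi / 2) = Real.pi / 2 := one_mul _
  rw [hval] at hfr he1 he2
  have hpi := Real.pi_pos
  have hsub : frontier S ⊆ S := hcomp.isClosed.frontier_subset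
  set p : ℂ := (1/2 : ℝ) • (z₁ + e a₁) + (1/2 : ℝ) • (z₁ + e (a₁ + Real.pi / 2)) with hp
  have hE1 : z₁ + e a₁ ∈ S := by
    apply hsub; rw [hfr]; left
    exact ⟨a₁, ⟨le_rfl, by linarith⟩, circ_eq _ _⟩
  have hE2 : z₁ + e (a₁ + Real.pi / 2) ∈ S := by
    apply hsub; rw [hfr]; left
    exact ⟨a₁ + Real.pi / 2, ⟨by linarith, le_rfl⟩, circ_eq _ _⟩
  have hpS : p ∈ S := hconv hE1 hE2 (by norm_num) (by norm_num) (by norm_num)
  have hp2 : p = (1/2 : ℝ) • (z₂ + e a₂) + (1/2 : ℝ) • (z₂ + e (a₂ + Real.pi / 2)) := by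
    rw [circ_eq, circ_eq] at he1 he2
    rw [hp, he1, he2, add_comm]
  have hsup : sSup ((fun q => dist p q) '' frontier S) ≤ Real.sqrt 2 / 2 := by
    apply Real.sSup_le
    · rintro v ⟨q, hq, rfl⟩
      rw [hfr] at hq
      rcases hq with ⟨θ, hθ, rfl⟩ | ⟨θ, hθ, rfl⟩
      · show dist p (circ 1 z₁ θ) ≤ _
        rw [circ_eq]
        exact arc_dist hθ.1 hθ.2
      · show dist p (circ 1 z₂ θ) ≤ _
        rw [circ_eq, hp2]
        exact arc_dist hθ.1 hθ.2
    · positivity
  refine le_trans (csInf_le ?_ ⟨p, hpS, rfl⟩) hsup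
  refine ⟨0, ?_⟩
  rintro v ⟨q, _, rfl⟩
  apply Real.sSup_nonneg
  rintro w ⟨r, _, rfl⟩
  exact dist_nonneg

/-- the lune of perimeter `π` with `λ = 1` -/
def lens : Set ℂ := Metric.closedBall (-((Real.sqrt 2 / 2 : ℝ) : ℂ)) 1 ∩
  Metric.closedBall ((Real.sqrt 2 / 2 : ℝ) : ℂ) 1

theorem mem_lens {z : ℂ} : z ∈ lens ↔ ‖z + ((Real.sqrt 2 / 2 : ℝ) : ℂ)‖ ≤ 1 ∧
    ‖z - ((Real.sqrt 2 / 2 : ℝ) : ℂ)‖ ≤ 1 := by
  rw [lens, mem_inter_iff, Metric.mem_closedBall, Metric.mem_closedBall, dist_eq_norm, dist_eq_norm,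
    sub_neg_eq_add]

/-- a point on the boundary circle of one of the two disks is not interior -/
theorem not_interior_of_norm {S : Set ℂ} {w z : ℂ} (hS : ∀ x ∈ S, ‖x - w‖ ≤ 1) (hz : ‖z - w‖ = 1) :
    z ∉ interior S := by
  intro hint
  have hcont : ContinuousAt (fun s : ℝ => w + (1 + s) • (z - w)) 0 := by
    apply Continuous.continuousAt; fun_prop
  have hnhds := hcont.preimage_mem_nhds (IsOpen.mem_nhds isOpen_interior (by simpa using hint))
  obtain ⟨ε, hε, hball⟩ := Metric.mem_nhds_iff.1 hnhds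
  have h2 := hball (show ε / 2 ∈ Metric.ball (0:ℝ) ε by
    rw [Metric.mem_ball, Real.dist_eq, sub_zero, abs_of_pos (by linarith)]; linarith)
  have h3 := hS _ (interior_subset h2)
  rw [add_sub_cancel_left, norm_smul, hz, mul_one, Real.norm_eq_abs, abs_of_pos (by linarith)] at h3
  linarith

theorem frontier_lens : frontier lens = {z | z ∈ lens ∧ (‖z + ((Real.sqrt 2 / 2 : ℝ) : ℂ)‖ = 1 ∨
    ‖z - ((Real.sqrt 2 / 2 : ℝ) : ℂ)‖ = 1)} := by
  have hcl : IsClosed lens := Metric.isClosed_closedBall.inter Metric.isClosed_closedBall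
  rw [hcl.frontier_eq]
  ext z
  constructor
  · rintro ⟨h1, h2⟩
    refine ⟨h1, ?_⟩
    by_contra hcon
    push Not at hcon
    apply h2
    have h3 := mem_lens.1 h1
    have hopen : IsOpen (Metric.ball (-((Real.sqrt 2 / 2 : ℝ) : ℂ)) 1 ∩
        Metric.ball ((Real.sqrt 2 / 2 : ℝ) : ℂ) 1) := Metric.isOpen_ball.inter Metric.isOpen_ball
    apply interior_maximal _ hopen
    · rw [mem_inter_iff, Metric.mem_ball, Metric.mem_ball, dist_eq_norm, dist_eq_norm, sub_neg_eq_add]
      exact ⟨lt_of_le_of_ne h3.1 hcon.1, lt_of_le_of_ne h3.2 hcon.2⟩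
    · exact inter_subset_inter Metric.ball_subset_closedBall Metric.ball_subset_closedBall
  · rintro ⟨h1, h2⟩
    refine ⟨h1, ?_⟩
    rcases h2 with h2 | h2
    · apply not_interior_of_norm (w := -((Real.sqrt 2 / 2 : ℝ) : ℂ))
      · intro x hx; rw [sub_neg_eq_add]; exact (mem_lens.1 hx).1
      · rw [sub_neg_eq_add]; exact h2
    · apply not_interior_of_norm (w := ((Real.sqrt 2 / 2 : ℝ) : ℂ))
      · intro x hx; exact (mem_lens.1 hx).2
      · exact h2

theorem exists_e {z : ℂ} (hz : ‖z‖ = 1) : ∃ θ ∈ Icc (-Real.pi) Real.pi, z = e θ := by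
  refine ⟨Complex.arg z, ⟨(Complex.neg_pi_lt_arg z).le, Complex.arg_le_pi z⟩, ?_⟩
  rw [e]
  have := Complex.norm_mul_exp_arg_mul_I z
  rw [hz] at this
  simpa using this.symm

theorem ofReal_eq_smul (r : ℝ) : (r : ℂ) = r • e 0 := by
  rw [e_eq]; apply Complex.ext <;> simp

/-- the condition to be in the second disk -/
theorem norm_sub_iff (θ : ℝ) : ‖e θ - ((Real.sqrt 2 : ℝ) : ℂ)‖ ≤ 1 ↔ Real.cos (Real.pi / 4) ≤ Real.cos θ := by
  have h6 : Real.sqrt 2 ^ 2 = 2 := Real.sq_sqrt (by norm_num)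
  have h7 : 0 < Real.sqrt 2 := by positivity
  have h1 := nsub 1 (Real.sqrt 2) (e_norm θ) (e_norm 0)
  rw [e_inner, sub_zero, one_smul, ← ofReal_eq_smul] at h1
  rw [Real.cos_pi_div_four]
  constructor
  · intro h
    have h2 : ‖e θ - ((Real.sqrt 2 : ℝ) : ℂ)‖ ^ 2 ≤ 1 := pow_le_one₀ (norm_nonneg _) h
    rw [h1] at h2
    nlinarith
  · intro h
    have h2 : ‖e θ - ((Real.sqrt 2 : ℝ) : ℂ)‖ ^ 2 ≤ 1 ^ 2 := by
      rw [h1]; nlinarith
    exact (sq_le_sq₀ (norm_nonneg _) zero_le_one).1 h2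

theorem abs_le_of_cos {θ : ℝ} (h : θ ∈ Icc (-Real.pi) Real.pi)
    (h2 : Real.cos (Real.pi / 4) ≤ Real.cos θ) : |θ| ≤ Real.pi / 4 := by
  have hpi := Real.pi_pos
  rw [← Real.cos_abs θ] at h2
  by_contra hcon
  push Not at hcon
  have h3 : |θ| ≤ Real.pi := abs_le.2 ⟨h.1, h.2⟩
  have := Real.cos_lt_cos_of_nonneg_of_le_pi (by linarith) h3 hcon
  linarith

theorem cos_le_of_abs {θ : ℝ} (h : |θ| ≤ Real.pi / 4) : Real.cos (Real.pi / 4) ≤ Real.cos θ := by
  have hpi := Real.pi_pos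
  rw [← Real.cos_abs θ]
  exact Real.cos_le_cos_of_nonneg_of_le_pi (abs_nonneg _) (by linarith) h

theorem lens_lune : IsLune 1 Real.pi lens := by
  have hpi := Real.pi_pos
  have h7 : 0 < Real.sqrt 2 := by positivity
  have h8 : Real.sqrt 2 / 2 < 1 := by
    have : Real.sqrt 2 < 2 := by rw [Real.sqrt_lt' (by norm_num)]; norm_num
    linarith
  set h : ℂ := ((Real.sqrt 2 / 2 : ℝ) : ℂ) with hh
  have hnorm : ‖h‖ = Real.sqrt 2 / 2 := by
    rw [hh, Complex.norm_real, Real.norm_eq_abs, abs_of_pos (by positivity)]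
  have h2h : h + h = ((Real.sqrt 2 : ℝ) : ℂ) := by rw [hh]; push_cast; ring
  refine ⟨(isCompact_closedBall _ _).inter (isCompact_closedBall _ _),
    (convex_closedBall _ _).inter (convex_closedBall _ _), ⟨0, ?_⟩, -h, h, -(Real.pi / 4),
    3 * Real.pi / 4, ?_, ?_, ?_⟩
  · have hopen : IsOpen (Metric.ball (-h) 1 ∩ Metric.ball h 1) := Metric.isOpen_ball.inter Metric.isOpen_ball
    apply interior_maximal (inter_subset_inter Metric.ball_subset_closedBall Metric.ball_subset_closedBall) hopen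
    rw [mem_inter_iff, Metric.mem_ball, Metric.mem_ball, dist_eq_norm, dist_eq_norm]
    simp only [sub_neg_eq_add, zero_add, zero_sub, norm_neg, hnorm]
    exact ⟨h8, h8⟩
  · rw [frontier_lens]
    ext z
    constructor
    · rintro ⟨h1, h2⟩
      have h3 := mem_lens.1 h1
      rcases h2 with h2 | h2
      · obtain ⟨θ, hθ, hz⟩ := exists_e h2
        left
        have hz' : z - h = e θ - ((Real.sqrt 2 : ℝ) : ℂ) := by rw [← hz, ← h2h]; ring
        have h4 := h3.2
        rw [← hh, hz', norm_sub_iff] at h4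
        have h5 := abs_le.1 (abs_le_of_cos hθ h4)
        refine ⟨θ, ⟨h5.1, by linarith [h5.2]⟩, ?_⟩
        rw [circ_eq, ← hz]; ring
      · have h2' : ‖-(z - h)‖ = 1 := by rw [norm_neg]; exact h2
        obtain ⟨θ, hθ, hz⟩ := exists_e h2'
        right
        have hz' : z + h = -(e θ - ((Real.sqrt 2 : ℝ) : ℂ)) := by rw [← hz, ← h2h]; ring
        have h4 := h3.1
        rw [← hh, hz', norm_neg, norm_sub_iff] at h4
        have h5 := abs_le.1 (abs_le_of_cos hθ h4)
        refine ⟨θ + Real.pi, ⟨by linarith [h5.1], by linarith [h5.2]⟩, ?_⟩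
        rw [circ_eq, e_add_pi, ← hz]; ring
    · rintro (⟨θ, ⟨ha, hb⟩, rfl⟩ | ⟨θ, ⟨ha, hb⟩, rfl⟩)
      · rw [circ_eq]
        have h4 := (norm_sub_iff θ).2 (cos_le_of_abs (abs_le.2 ⟨by linarith, by linarith⟩))
        have e1 : -h + e θ + h = e θ := by ring
        have e2 : -h + e θ - h = e θ - ((Real.sqrt 2 : ℝ) : ℂ) := by rw [← h2h]; ring
        refine ⟨mem_lens.2 ⟨?_, ?_⟩, Or.inl ?_⟩
        · rw [← hh, e1, e_norm]
        · rw [← hh, e2]; exact h4
        · rw [← hh, e1, e_norm]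
      · rw [circ_eq]
        have h4 := (norm_sub_iff (θ - Real.pi)).2 (cos_le_of_abs (abs_le.2 ⟨by linarith, by linarith⟩))
        have e0 : e θ = -e (θ - Real.pi) := by rw [← e_add_pi, sub_add_cancel]
        have e1 : h + e θ - h = e θ := by ring
        have e2 : h + e θ + h = -(e (θ - Real.pi) - ((Real.sqrt 2 : ℝ) : ℂ)) := by
          rw [← h2h, e0]; ring
        refine ⟨mem_lens.2 ⟨?_, ?_⟩, Or.inr ?_⟩
        · rw [← hh, e2, norm_neg]; exact h4
        · rw [← hh, e1, e_norm]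
        · rw [← hh, e1, e_norm]
  · rw [circ_eq, circ_eq, hh, e_eq, e_eq]
    rw [show 3 * Real.pi / 4 + 1 * (Real.pi / 2) = Real.pi / 4 + Real.pi by ring, Real.cos_add_pi,
      Real.sin_add_pi, Real.cos_neg, Real.sin_neg, Real.cos_pi_div_four, Real.sin_pi_div_four]
    apply Complex.ext <;> simp
  · rw [circ_eq, circ_eq, hh, e_eq, e_eq]
    rw [show 3 * Real.pi / 4 = Real.pi - Real.pi / 4 by ring,
      show -(Real.pi / 4) + 1 * (Real.pi / 2) = Real.pi / 4 by ring, Real.cos_pi_sub,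
      Real.sin_pi_sub, Real.cos_pi_div_four, Real.sin_pi_div_four]
    apply Complex.ext <;> simp

/-- **Main result.** The conjectured inequality `R(D) ≤ R_λ(L)` fails for `κ = 0`, `λ = 1`. -/
theorem result : ∃ (M : Type) (_ : MetricSpace M), IsCBB0 M ∧ Nonempty (M ≃ₜ ℂ) ∧
    ∃ (D : Set M) (c : ℝ → M) (P lam L : ℝ), 0 < lam ∧ 0 < L ∧ IsDisk D c P L ∧
      IsLambdaConvex D c P lam ∧ (∃ S : Set ℂ, IsLune lam L S) ∧
      ∀ S : Set ℂ, IsLune lam L S → circumRadius S < circumRadius D := by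
  have hpi := Real.pi_pos
  refine ⟨Cone, inferInstance, cone_cbb, ⟨homeo⟩, DD, cc, Real.pi, 1, Real.pi, one_pos, hpi,
    ⟨DD_closed, boundary_DD, interior_homeo, by rw [len_cc hpi.le, sub_zero], ?_⟩,
    ⟨flat_DD, ?_, ?_⟩, ⟨lens, lens_lune⟩, ?_⟩
  · have h1 := (cc_lipschitz.lipschitzOnWith (s := univ)).comp_eVariationOn_le (g := id)
      (s := Icc 0 Real.pi) (fun _ _ => mem_univ _)
    rw [eVariationOn_id_Icc, Function.comp_id] at h1
    exact ne_top_of_le_ne_top (ENNReal.mul_ne_top ENNReal.coe_ne_top ENNReal.ofReal_ne_top) h1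
  · intro a b hab _
    exact ⟨b - a, swerve hab, by rw [len_cc hab.le, one_mul]⟩
  · intro a b hab _
    exact ⟨b - a + 2 * Real.pi, swerve_literal hab, by rw [len_cc hab.le, one_mul]; linarith⟩
  · intro S hS
    have h1 := lune_radius hS
    have h2 := one_le_circumRadius
    have h3 : Real.sqrt 2 < 2 := by rw [Real.sqrt_lt' (by norm_num)]; norm_num
    linarith

end Pool.Agent.Results.MP_4b815d_gt.ConeCounterexample
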